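import Pool.Agent.Work.MP_4792b2_co.Main

namespace Pool.Agent.Results.MP_4792b2_co.StrongPigeonhole

open Pool.Agent.Work.MP_4792b2_co

universe u

/-- The class of finite matroids that are both transversal and cotransversal is strongly
pigeonhole. -/
theorem result :
    ∀ l : ℕ, 0 < l → ∃ p : ℕ, 0 < p ∧
      ∀ (α : Type u) (M : Matroid α), M.Finite → IsTransversal M → IsTransversal M.dual →
        ∀ U : Set α, U ⊆ M.E → M.eRk U + M.eRk (M.E \ U) - M.eRank ≤ (l : ℕ∞) →
          (simClasses M U).encard ≤ (p : ℕ∞) := by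
  intro l _
  refine ⟨2 ^ ((2 ^ (2 * (2 ^ l + l)) * 2 ^ l) * l) + 1, Nat.succ_pos _, ?_⟩
  intro α M hM hT hT' U hU hconn
  obtain ⟨n, A, hA⟩ := hT.exists_presents
  obtain ⟨n', A', hA'⟩ := hT'.exists_presents
  refine simClasses_le hA hA' ⟨Set.union_sdiff_cancel hU, Set.disjoint_sdiff_right, ?_⟩
  rw [tsub_le_iff_left, ← Matroid.eRk_ground, ← rk_cast, ← rk_cast, ← rk_cast] at hconn
  exact_mod_cast hconn

end Pool.Agent.Results.MP_4792b2_co.StrongPigeonhole
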